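import Pool.Agent.Helper53.EN.Ent

/-!
# Chain bound, independent bits, fibres (entropy on finite uniform spaces)
-/

namespace Helper53.EN

open Finset

section Chain

variable {Ω : Type*} [Fintype Ω]

/-- one step: `t` is a function of `(l, Y)` -/
theorem H_step {Λ β τ : Type*} (l : Ω → Λ) (Y : Ω → β) (t : Ω → τ)
    (ht : ∀ w w', l w = l w' → Y w = Y w' → t w = t w') :
    H l Y = H t Y + H l (fun x => (t x, Y x)) := by
  rw [← H_chain]
  refine H_congr _ _ _ _ (fun _ _ => Iff.rfl) fun w w' => ?_
  constructor
  · rintro ⟨h1, h2⟩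
    exact ⟨Prod.ext (ht w w' h1 h2) h1, h2⟩
  · rintro ⟨h1, h2⟩
    exact ⟨(Prod.ext_iff.1 h1).2, h2⟩

theorem H_le_of_fun {Λ β τ : Type*} (l : Ω → Λ) (Y : Ω → β) (t : Ω → τ)
    (ht : ∀ w w', l w = l w' → Y w = Y w' → t w = t w') : H t Y ≤ H l Y := by
  rw [H_step l Y t ht]
  linarith [H_nonneg l (fun x => (t x, Y x))]

/-- E1: if `t r` is a function of `(l, Y r)` and `Y (r + 1)` determines `Y r` and `t r`, the
conditional entropies of the `t r` given the `Y r` add up to at most `H l (Y 0)` -/
theorem chain_le {Λ : Type*} (l : Ω → Λ) {β τ : ℕ → Type*} (Y : ∀ r, Ω → β r)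
    (t : ∀ r, Ω → τ r) (R : ℕ)
    (ht : ∀ r, r < R → ∀ w w', l w = l w' → Y r w = Y r w' → t r w = t r w')
    (hY : ∀ r, r + 1 < R → ∀ w w', Y (r + 1) w = Y (r + 1) w' →
      Y r w = Y r w' ∧ t r w = t r w') :
    ∑ r ∈ Finset.range R, H (t r) (Y r) ≤ H l (Y 0) := by
  have key : ∀ r, r < R → ∑ i ∈ Finset.range r, H (t i) (Y i) + H l (Y r) ≤ H l (Y 0) := by
    intro r
    induction r with
    | zero => intro _; simp
    | succ r ih =>
      intro hr
      have h1 := ih (by omega)
      rw [Finset.sum_range_succ]
      have h2 := H_step l (Y r) (t r) (ht r (by omega))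
      have h3 : H l (Y (r + 1)) ≤ H l (fun x => (t r x, Y r x)) := by
        refine H_anti _ _ _ fun w w' e => ?_
        obtain ⟨e1, e2⟩ := hY r hr w w' e
        exact Prod.ext e2 e1
      linarith
  rcases Nat.eq_zero_or_pos R with h0 | hpos
  · subst h0; simpa using H_nonneg l (Y 0)
  · obtain ⟨R', rfl⟩ : ∃ R', R = R' + 1 := ⟨R - 1, by omega⟩
    rw [Finset.sum_range_succ]
    have h1 := key R' (Nat.lt_succ_self _)
    have h2 := H_le_of_fun l (Y R') (t R') (ht R' (Nat.lt_succ_self _))
    linarith

end Chain

section Bits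

variable {J : Type*} [Fintype J] [DecidableEq J]

/-- given a function with few values, `|J|` independent bits keep most of their entropy -/
theorem H_id_ge {γ : Type*} [Fintype γ] [Nonempty γ] (F : (J → Bool) → γ) :
    (Fintype.card J : ℝ) * Real.log 2 - Real.log (Fintype.card γ : ℝ)
      ≤ H (fun w : J → Bool => w) F := by
  have hcard : (Fintype.card (J → Bool) : ℝ) = 2 ^ (Fintype.card J) := by
    rw [Fintype.card_fun, Fintype.card_bool]; push_cast; rfl
  have hpos : (0 : ℝ) < (Fintype.card (J → Bool) : ℝ) := by rw [hcard]; positivity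
  have hγ : (0 : ℝ) < (Fintype.card γ : ℝ) := by exact_mod_cast Fintype.card_pos
  have hsum : ∑ w : (J → Bool), (cnt F w)⁻¹ ≤ (Fintype.card γ : ℝ) := by
    have h3 : ∀ w : (J → Bool), (cnt F w)⁻¹ = ∑ c : γ, ind (F w = c) / cnt F w := by
      intro w
      rw [← Finset.sum_div, inv_eq_one_div]
      congr 1
      rw [Finset.sum_eq_single (F w)]
      · exact (ind_pos rfl).symm
      · intro c _ hc; exact ind_neg fun h => hc h.symm
      · intro h; exact absurd (Finset.mem_univ _) h
    simp_rw [h3]
    rw [Finset.sum_comm]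
    calc ∑ c : γ, ∑ w : (J → Bool), ind (F w = c) / cnt F w ≤ ∑ _c : γ, (1 : ℝ) :=
          Finset.sum_le_sum fun c _ => sum_inv_cnt_le _ _ fun w w' hw hw' => hw.trans hw'.symm
      _ = _ := by simp [Finset.card_univ]
  have h1 := mean_log_le (fun w : (J → Bool) => (cnt F w)⁻¹) (fun w => inv_pos.2 (cnt_pos F w))
    ((Fintype.card γ : ℝ) / (Fintype.card (J → Bool) : ℝ)) (div_pos hγ hpos) (by
      rw [div_mul_cancel₀ _ hpos.ne']; exact hsum)
  have h2 : H (fun w : J → Bool => w) F
      = (∑ w : (J → Bool), Real.log (cnt F w)) / (Fintype.card (J → Bool) : ℝ) := by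
    unfold H
    congr 1
    refine Finset.sum_congr rfl fun w _ => ?_
    have : cnt (fun x : J → Bool => (x, F x)) w = 1 := by
      unfold cnt
      rw [Finset.sum_eq_single w]
      · exact ind_pos rfl
      · intro w' _ hw'
        exact ind_neg fun h => hw' (Prod.ext_iff.1 h).1
      · intro h; exact absurd (Finset.mem_univ _) h
    rw [this, div_one]
  rw [h2, le_div_iff₀ hpos]
  simp only [Real.log_inv, Finset.sum_neg_distrib] at h1
  rw [Real.log_div hγ.ne' hpos.ne', hcard, Real.log_pow] at h1
  rw [hcard]
  nlinarith [h1]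

/-- subadditivity over a finite set of bits -/
theorem H_restrict_le {ι γ : Type*} [DecidableEq ι] (b : ι → J) (F : (J → Bool) → γ)
    (s : Finset ι) :
    H (fun (w : J → Bool) (i : ι) => if i ∈ s then w (b i) else false) F
      ≤ ∑ i ∈ s, H (fun w : J → Bool => w (b i)) F := by
  induction s using Finset.induction_on with
  | empty =>
    simp only [Finset.notMem_empty, if_false, Finset.sum_empty]
    exact (H_of_fun _ _ fun _ _ _ => rfl).le
  | insert a s ha ih =>
    rw [Finset.sum_insert ha]
    have h1 : H (fun (w : J → Bool) (i : ι) => if i ∈ insert a s then w (b i) else false) F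
        = H (fun w : J → Bool => ((fun i : ι => if i ∈ s then w (b i) else false), w (b a))) F := by
      refine H_congr _ _ _ _ (fun _ _ => Iff.rfl) fun w w' => ?_
      refine and_congr_left fun _ => ?_
      constructor
      · intro h
        refine Prod.ext ?_ ?_
        · funext i
          have := congrFun h i
          by_cases hi : i ∈ s
          · simpa [hi, Finset.mem_insert] using this
          · simp [hi]
        · have := congrFun h a
          simpa using this
      · intro h
        have h1 := (Prod.ext_iff.1 h).1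
        have h2 := (Prod.ext_iff.1 h).2
        funext i
        by_cases hi : i = a
        · subst hi; simpa using h2
        · have := congrFun h1 i
          simpa [Finset.mem_insert, hi] using this
    rw [h1, H_chain]
    have h2 : H (fun w : J → Bool => w (b a))
        (fun w : J → Bool => ((fun i : ι => if i ∈ s then w (b i) else false), F w))
        ≤ H (fun w : J → Bool => w (b a)) F := H_anti _ _ _ fun w w' e => (Prod.ext_iff.1 e).2
    linarith

/-- E2: independent bits `w (b i)`, `i ∈ s`, `b` injective on `s`; each `G i` is a function of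
`F`, and `F` has at most `|γ|` values: the losses of entropy add up to at most `log |γ|` -/
theorem bits_le {ι γ δ : Type*} [Fintype γ] [Nonempty γ] (b : ι → J) (F : (J → Bool) → γ)
    (s : Finset ι) (hb : ∀ i ∈ s, ∀ i' ∈ s, b i = b i' → i = i') (G : ι → (J → Bool) → δ)
    (hG : ∀ i ∈ s, ∀ w w', F w = F w' → G i w = G i w') :
    ∑ i ∈ s, (Real.log 2 - H (fun w : J → Bool => w (b i)) (G i))
      ≤ Real.log (Fintype.card γ : ℝ) := by
  classical
  have h1 := H_id_ge F
  set C : Finset J := s.image b with hC
  have hCcard : C.card = s.card := Finset.card_image_of_injOn fun i hi i' hi' h => hb i hi i' hi' h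
  -- the whole word is determined by the bits of `s` and the rest
  have h2 : H (fun w : J → Bool => w) F
      = H (fun w : J → Bool => ((fun i : ι => if i ∈ s then w (b i) else false),
          (fun j : {j // j ∉ C} => w j))) F := by
    refine H_congr _ _ _ _ (fun _ _ => Iff.rfl) fun w w' => ?_
    refine and_congr_left fun _ => ?_
    constructor
    · intro h; rw [h]
    · intro h
      have e1 := (Prod.ext_iff.1 h).1
      have e2 := (Prod.ext_iff.1 h).2
      funext j
      by_cases hj : j ∈ C
      · rw [hC, Finset.mem_image] at hj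
        obtain ⟨i, hi, rfl⟩ := hj
        have := congrFun e1 i
        simpa [hi] using this
      · exact congrFun e2 ⟨j, hj⟩
  rw [h2, H_chain] at h1
  have h3 := H_restrict_le b F s
  have h4 : H (fun (w : J → Bool) (j : {j // j ∉ C}) => w j)
      (fun w : J → Bool => ((fun i : ι => if i ∈ s then w (b i) else false), F w))
      ≤ Real.log (Fintype.card ({j // j ∉ C} → Bool) : ℝ) := H_le_log _ _
  have h5 : Real.log (Fintype.card ({j // j ∉ C} → Bool) : ℝ)
      = ((Fintype.card J : ℝ) - (s.card : ℝ)) * Real.log 2 := by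
    rw [Fintype.card_fun, Fintype.card_bool]
    push_cast
    rw [Real.log_pow]
    congr 1
    have : Fintype.card {j // j ∉ C} = Fintype.card J - C.card := by
      rw [Fintype.card_subtype_compl (fun j => j ∈ C)]
      simp
    rw [this, hCcard, Nat.cast_sub]
    rw [← hCcard]
    exact Finset.card_le_univ C
  have h6 : ∑ i ∈ s, H (fun w : J → Bool => w (b i)) F
      ≤ ∑ i ∈ s, H (fun w : J → Bool => w (b i)) (G i) :=
    Finset.sum_le_sum fun i hi => H_anti _ _ _ (hG i hi)
  rw [Finset.sum_sub_distrib]
  simp only [Finset.sum_const, nsmul_eq_mul]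
  rw [h5] at h4
  nlinarith [h1, h3, h4, h6]

end Bits

section Fibres

variable {Ω I X : Type*} [Fintype Ω] [Fintype I] [Fintype X]

theorem cnt_fibre {γ : Type*} (e : I × X ≃ Ω) (k : Ω → γ) (i : I) (x : X) :
    cnt (fun w => (k w, (e.symm w).1)) (e (i, x)) = cnt (fun x : X => k (e (i, x))) x := by
  unfold cnt
  rw [← e.sum_comp, Fintype.sum_prod_type]
  rw [Finset.sum_eq_single i]
  · refine Finset.sum_congr rfl fun x' _ => ind_congr ?_
    simp
  · intro i' _ hi'
    refine Finset.sum_eq_zero fun x' _ => ind_neg ?_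
    simp [hi']
  · intro h; exact absurd (Finset.mem_univ _) h

/-- E3: splitting a uniform space into fibres `X`, indexed by `I` -/
theorem fibre_le {α β : Type*} (e : I × X ≃ Ω) (f : Ω → α) (g : Ω → β) [Nonempty I] :
    (∑ i : I, H (fun x : X => f (e (i, x))) (fun x : X => g (e (i, x)))) / (Fintype.card I : ℝ)
      ≤ H f g := by
  have hI : (0 : ℝ) < (Fintype.card I : ℝ) := by exact_mod_cast Fintype.card_pos
  refine le_trans (le_of_eq ?_) (H_cond_le f g (fun w => (e.symm w).1))
  have hcard : (Fintype.card Ω : ℝ) = (Fintype.card I : ℝ) * (Fintype.card X : ℝ) := by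
    rw [← Fintype.card_congr e, Fintype.card_prod]; push_cast; rfl
  unfold H
  rw [← e.sum_comp, Fintype.sum_prod_type, hcard, ← div_div]
  rw [Finset.sum_div, Finset.sum_div, Finset.sum_div]
  refine Finset.sum_congr rfl fun i _ => ?_
  rw [div_div, div_div, mul_comm (Fintype.card I : ℝ)]
  congr 1
  refine Finset.sum_congr rfl fun x _ => ?_
  rw [cnt_fibre e g i x]
  have e2 : cnt (fun w => (f w, (g w, (e.symm w).1))) (e (i, x))
      = cnt (fun w => ((f w, g w), (e.symm w).1)) (e (i, x)) := by
    refine cnt_congr _ _ _ fun w' => ?_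
    simp only [Prod.mk.injEq]
    tauto
  rw [e2, cnt_fibre e (fun w => (f w, g w)) i x]

end Fibres

section Main

variable {Ω I W J : Type*} [Fintype Ω] [Fintype I] [Fintype W] [Fintype J] [DecidableEq J]

/-- E4: `Ω` is `I × (J → Bool)`, the index `i` consists of `a i : W` and `b i : J`; `f` is the
bit `b i`, and for every value of `a` all the conditions `g` are functions of one `F` with at
most `|γ|` values. Then the entropy of `f` given `g` is at least
`log 2 - |W| log |γ| / |I|`. -/
theorem bit_entropy {β γ : Type*} [Fintype γ] [Nonempty γ] [Nonempty I]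
    (e : I × (J → Bool) ≃ Ω) (a : I → W) (b : I → J)
    (hab : ∀ i i', a i = a i' → b i = b i' → i = i')
    (f : Ω → Bool) (hf : ∀ i T, f (e (i, T)) = T (b i))
    (g : Ω → β) (F : W → (J → Bool) → γ)
    (hg : ∀ i T T', F (a i) T = F (a i) T' → g (e (i, T)) = g (e (i, T'))) :
    Real.log 2 - (Fintype.card W : ℝ) * Real.log (Fintype.card γ : ℝ) / (Fintype.card I : ℝ)
      ≤ H f g := by
  classical
  have hI : (0 : ℝ) < (Fintype.card I : ℝ) := by exact_mod_cast Fintype.card_pos
  refine le_trans ?_ (fibre_le e f g)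
  rw [le_div_iff₀ hI, sub_mul, div_mul_cancel₀ _ hI.ne']
  have h1 : ∀ w : W, ∑ i ∈ Finset.univ.filter (fun i => a i = w),
      (Real.log 2 - H (fun T : J → Bool => T (b i)) (fun T => g (e (i, T))))
        ≤ Real.log (Fintype.card γ : ℝ) := by
    intro w
    refine bits_le b (F w) _ ?_ (fun i T => g (e (i, T))) ?_
    · intro i hi i' hi' h
      rw [Finset.mem_filter] at hi hi'
      exact hab i i' (hi.2.trans hi'.2.symm) h
    · intro i hi T T' h
      rw [Finset.mem_filter] at hi
      exact hg i T T' (by rw [hi.2]; exact h)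
  have h2 : ∑ w : W, ∑ i ∈ Finset.univ.filter (fun i => a i = w),
      (Real.log 2 - H (fun T : J → Bool => T (b i)) (fun T => g (e (i, T))))
      = ∑ i : I, (Real.log 2 - H (fun T : J → Bool => T (b i)) (fun T => g (e (i, T)))) :=
    Finset.sum_fiberwise Finset.univ a _
  have h3 : ∑ i : I, (Real.log 2 - H (fun T : J → Bool => T (b i)) (fun T => g (e (i, T))))
      ≤ (Fintype.card W : ℝ) * Real.log (Fintype.card γ : ℝ) := by
    rw [← h2]
    calc _ ≤ ∑ _w : W, Real.log (Fintype.card γ : ℝ) := Finset.sum_le_sum fun w _ => h1 w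
      _ = _ := by simp [Finset.card_univ]
  have h4 : ∀ i : I, H (fun x : J → Bool => f (e (i, x))) (fun x => g (e (i, x)))
      = H (fun T : J → Bool => T (b i)) (fun T => g (e (i, T))) := by
    intro i
    have : (fun x : J → Bool => f (e (i, x))) = fun T : J → Bool => T (b i) := by
      funext T; exact hf i T
    rw [this]
  simp_rw [h4]
  rw [Finset.sum_sub_distrib] at h3
  simp only [Finset.sum_const, nsmul_eq_mul, Finset.card_univ] at h3
  linarith

end Main

end Helper53.EN
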