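import Mathlib

/-!
# Entropy of functions on a finite set with the uniform measure (natural logarithm)

`cnt g w` is the size of the fibre of `g` through `w`; `H f g` is the conditional entropy of `f`
given `g`: the mean of `log (cnt g w / cnt (f, g) w)`.
-/

namespace Helper53.EN

open Finset

/-- indicator of a proposition -/
noncomputable def ind (p : Prop) : ℝ := @ite ℝ p (Classical.propDecidable p) 1 0

theorem ind_pos {p : Prop} (h : p) : ind p = 1 := by simp [ind, h]

theorem ind_neg {p : Prop} (h : ¬ p) : ind p = 0 := by simp [ind, h]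

theorem ind_nonneg (p : Prop) : 0 ≤ ind p := by
  by_cases h : p
  · rw [ind_pos h]; exact zero_le_one
  · rw [ind_neg h]

theorem ind_congr {p q : Prop} (h : p ↔ q) : ind p = ind q := by
  by_cases hp : p
  · rw [ind_pos hp, ind_pos (h.1 hp)]
  · rw [ind_neg hp, ind_neg (fun hq => hp (h.2 hq))]

theorem ind_mono {p q : Prop} (h : p → q) : ind p ≤ ind q := by
  by_cases hp : p
  · rw [ind_pos hp, ind_pos (h hp)]
  · rw [ind_neg hp]; exact ind_nonneg q

theorem ind_and (p q : Prop) : ind (p ∧ q) = ind p * ind q := by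
  by_cases hp : p
  · by_cases hq : q
    · rw [ind_pos hp, ind_pos hq, ind_pos ⟨hp, hq⟩, one_mul]
    · rw [ind_neg hq, ind_neg (fun h => hq h.2), mul_zero]
  · rw [ind_neg hp, ind_neg (fun h => hp h.1), zero_mul]

variable {Ω : Type*} [Fintype Ω]

/-- the size of the fibre of `g` through `w` -/
noncomputable def cnt {β : Type*} (g : Ω → β) (w : Ω) : ℝ := ∑ w' : Ω, ind (g w' = g w)

theorem one_le_cnt {β : Type*} (g : Ω → β) (w : Ω) : 1 ≤ cnt g w := by
  unfold cnt
  calc (1 : ℝ) = ind (g w = g w) := (ind_pos rfl).symm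
    _ ≤ ∑ w' : Ω, ind (g w' = g w) :=
      Finset.single_le_sum (f := fun w' => ind (g w' = g w)) (fun i _ => ind_nonneg _)
        (Finset.mem_univ w)

theorem cnt_pos {β : Type*} (g : Ω → β) (w : Ω) : 0 < cnt g w :=
  lt_of_lt_of_le zero_lt_one (one_le_cnt g w)

theorem cnt_congr {β β' : Type*} (g : Ω → β) (g' : Ω → β') (w : Ω)
    (h : ∀ w', g w' = g w ↔ g' w' = g' w) : cnt g w = cnt g' w :=
  Finset.sum_congr rfl fun w' _ => ind_congr (h w')

theorem cnt_mono {β β' : Type*} (g : Ω → β) (g' : Ω → β') (w : Ω)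
    (h : ∀ w', g' w' = g' w → g w' = g w) : cnt g' w ≤ cnt g w :=
  Finset.sum_le_sum fun w' _ => ind_mono (h w')

theorem cnt_eq_of_eq {β : Type*} (g : Ω → β) {w w' : Ω} (h : g w = g w') :
    cnt g w = cnt g w' := by
  unfold cnt
  rw [h]

/-- the reciprocals of the fibre sizes add up to at most one on a fibre -/
theorem sum_inv_cnt_le {β : Type*} (g : Ω → β) (S : Ω → Prop)
    (hS : ∀ w w', S w → S w' → g w = g w') : ∑ w : Ω, ind (S w) / cnt g w ≤ 1 := by
  by_cases h : ∃ w, S w
  · obtain ⟨w0, h0⟩ := h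
    have h1 : ∀ w : Ω, ind (S w) / cnt g w ≤ ind (g w = g w0) / cnt g w0 := by
      intro w
      by_cases hw : S w
      · have : g w = g w0 := hS w w0 hw h0
        rw [ind_pos hw, ind_pos this, cnt_eq_of_eq g this]
      · rw [ind_neg hw, zero_div]
        exact div_nonneg (ind_nonneg _) (cnt_pos g w0).le
    calc ∑ w : Ω, ind (S w) / cnt g w ≤ ∑ w : Ω, ind (g w = g w0) / cnt g w0 :=
          Finset.sum_le_sum fun w _ => h1 w
      _ = (∑ w : Ω, ind (g w = g w0)) / cnt g w0 := by rw [Finset.sum_div]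
      _ = 1 := div_self (cnt_pos g w0).ne'
  · have : ∑ w : Ω, ind (S w) / cnt g w = 0 := by
      refine Finset.sum_eq_zero fun w _ => ?_
      rw [ind_neg (fun hw => h ⟨w, hw⟩), zero_div]
    rw [this]; exact zero_le_one

/-- conditional entropy of `f` given `g` -/
noncomputable def H {α β : Type*} (f : Ω → α) (g : Ω → β) : ℝ :=
  (∑ w : Ω, Real.log (cnt g w / cnt (fun x => (f x, g x)) w)) / (Fintype.card Ω : ℝ)

theorem H_nonneg {α β : Type*} (f : Ω → α) (g : Ω → β) : 0 ≤ H f g := by
  refine div_nonneg (Finset.sum_nonneg fun w _ => ?_) (Nat.cast_nonneg _)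
  refine Real.log_nonneg ?_
  rw [le_div_iff₀ (cnt_pos _ w), one_mul]
  exact cnt_mono _ _ w fun w' h => (Prod.ext_iff.1 h).2

/-- functions with the same fibres have the same entropies -/
theorem H_congr {α α' β β' : Type*} (f : Ω → α) (f' : Ω → α') (g : Ω → β) (g' : Ω → β')
    (hg : ∀ w w', g w = g w' ↔ g' w = g' w')
    (hf : ∀ w w', (f w = f w' ∧ g w = g w') ↔ (f' w = f' w' ∧ g' w = g' w')) :
    H f g = H f' g' := by
  unfold H
  congr 1
  refine Finset.sum_congr rfl fun w _ => ?_
  rw [cnt_congr g g' w (fun w' => hg w' w)]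
  rw [cnt_congr (fun x => (f x, g x)) (fun x => (f' x, g' x)) w]
  intro w'
  simp only [Prod.mk.injEq]
  exact hf w' w

/-- the mean of `log x` is at most `log A` if the mean of `x` is at most `A` -/
theorem mean_log_le (x : Ω → ℝ) (hx : ∀ w, 0 < x w) (A : ℝ) (hA : 0 < A)
    (h : ∑ w : Ω, x w ≤ A * (Fintype.card Ω : ℝ)) :
    ∑ w : Ω, Real.log (x w) ≤ Real.log A * (Fintype.card Ω : ℝ) := by
  have h1 : ∀ w : Ω, Real.log (x w) ≤ Real.log A + (x w / A - 1) := by
    intro w
    have h2 : Real.log (x w / A) ≤ x w / A - 1 := Real.log_le_sub_one_of_pos (div_pos (hx w) hA)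
    rw [Real.log_div (hx w).ne' hA.ne'] at h2
    linarith
  calc ∑ w : Ω, Real.log (x w) ≤ ∑ w : Ω, (Real.log A + (x w / A - 1)) :=
        Finset.sum_le_sum fun w _ => h1 w
    _ = Real.log A * (Fintype.card Ω : ℝ) + ((∑ w : Ω, x w) / A - (Fintype.card Ω : ℝ)) := by
        rw [Finset.sum_add_distrib, Finset.sum_sub_distrib, ← Finset.sum_div]
        simp [Finset.card_univ, mul_comm]
    _ ≤ Real.log A * (Fintype.card Ω : ℝ) + 0 := by
        have : (∑ w : Ω, x w) / A ≤ (Fintype.card Ω : ℝ) := by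
          rw [div_le_iff₀ hA, mul_comm]; exact h
        linarith
    _ = _ := by ring

/-- the entropy of a function with values in a finite set -/
theorem H_le_log {α β : Type*} [Fintype α] [Nonempty α] (f : Ω → α) (g : Ω → β) :
    H f g ≤ Real.log (Fintype.card α : ℝ) := by
  rcases isEmpty_or_nonempty Ω with he | hne
  · have : H f g = 0 := by unfold H; simp
    rw [this]
    refine Real.log_nonneg ?_
    exact_mod_cast Fintype.card_pos
  have hcard : (0 : ℝ) < (Fintype.card Ω : ℝ) := by exact_mod_cast Fintype.card_pos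
  have hα : (0 : ℝ) < (Fintype.card α : ℝ) := by exact_mod_cast Fintype.card_pos
  unfold H
  rw [div_le_iff₀ hcard]
  refine mean_log_le _ (fun w => div_pos (cnt_pos _ w) (cnt_pos _ w)) _ hα ?_
  have h1 : ∀ w : Ω, cnt g w / cnt (fun x => (f x, g x)) w
      = ∑ w1 : Ω, ind (g w1 = g w) / cnt (fun x => (f x, g x)) w := by
    intro w; rw [← Finset.sum_div]; rfl
  simp_rw [h1]
  rw [Finset.sum_comm]
  have h2 : ∀ w1 : Ω, ∑ w : Ω, ind (g w1 = g w) / cnt (fun x => (f x, g x)) w
      ≤ (Fintype.card α : ℝ) := by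
    intro w1
    have h3 : ∀ w : Ω, ind (g w1 = g w) / cnt (fun x => (f x, g x)) w
        = ∑ a : α, ind (f w = a ∧ g w1 = g w) / cnt (fun x => (f x, g x)) w := by
      intro w
      rw [← Finset.sum_div]
      congr 1
      rw [Finset.sum_eq_single (f w)]
      · exact ind_congr ⟨fun h => ⟨rfl, h⟩, fun h => h.2⟩
      · intro a _ ha
        exact ind_neg fun h => ha h.1.symm
      · intro h; exact absurd (Finset.mem_univ _) h
    simp_rw [h3]
    rw [Finset.sum_comm]
    calc ∑ a : α, ∑ w : Ω, ind (f w = a ∧ g w1 = g w) / cnt (fun x => (f x, g x)) w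
        ≤ ∑ _a : α, (1 : ℝ) := by
          refine Finset.sum_le_sum fun a _ => ?_
          refine sum_inv_cnt_le _ _ fun w w' hw hw' => ?_
          exact Prod.ext (hw.1.trans hw'.1.symm) (hw.2.symm.trans hw'.2)
      _ = _ := by simp [Finset.card_univ]
  calc _ ≤ ∑ _w1 : Ω, (Fintype.card α : ℝ) := Finset.sum_le_sum fun w1 _ => h2 w1
    _ = _ := by simp [Finset.card_univ, mul_comm]

/-- chain rule -/
theorem H_chain {α α' β : Type*} (f : Ω → α) (f' : Ω → α') (g : Ω → β) :
    H (fun x => (f x, f' x)) g = H f g + H f' (fun x => (f x, g x)) := by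
  unfold H
  rw [← add_div, ← Finset.sum_add_distrib]
  congr 1
  refine Finset.sum_congr rfl fun w _ => ?_
  have e : cnt (fun x => ((f x, f' x), g x)) w = cnt (fun x => (f' x, (f x, g x))) w := by
    refine cnt_congr _ _ w fun w' => ?_
    simp only [Prod.mk.injEq]
    tauto
  rw [e, ← Real.log_mul (div_pos (cnt_pos _ w) (cnt_pos _ w)).ne'
    (div_pos (cnt_pos _ w) (cnt_pos _ w)).ne']
  congr 1
  field_simp [(cnt_pos (fun x => (f x, g x)) w).ne', (cnt_pos (fun x => (f' x, (f x, g x))) w).ne']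

/-- conditioning on more reduces the entropy: `g'` is finer than `g` -/
theorem H_anti {α β β' : Type*} (f : Ω → α) (g : Ω → β) (g' : Ω → β')
    (h : ∀ w w', g' w = g' w' → g w = g w') : H f g' ≤ H f g := by
  rcases isEmpty_or_nonempty Ω with he | hne
  · unfold H; simp
  have hcard : (0 : ℝ) < (Fintype.card Ω : ℝ) := by exact_mod_cast Fintype.card_pos
  set k := fun x => (f x, g x) with hk
  set k' := fun x => (f x, g' x) with hk'
  have hmain : ∑ w : Ω, Real.log ((cnt g' w / cnt k' w) * (cnt k w / cnt g w))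
      ≤ Real.log 1 * (Fintype.card Ω : ℝ) := by
    refine mean_log_le _ (fun w => mul_pos (div_pos (cnt_pos _ w) (cnt_pos _ w))
      (div_pos (cnt_pos _ w) (cnt_pos _ w))) 1 one_pos ?_
    rw [one_mul]
    -- expand both counts
    have h1 : ∀ w : Ω, (cnt g' w / cnt k' w) * (cnt k w / cnt g w)
        = ∑ w1 : Ω, ∑ w2 : Ω, (ind (g' w1 = g' w) * ind (k w2 = k w)) /
            cnt k' w / cnt g w := by
      intro w
      have : cnt g' w * cnt k w
          = ∑ w1 : Ω, ∑ w2 : Ω, ind (g' w1 = g' w) * ind (k w2 = k w) := by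
        unfold cnt
        rw [Finset.sum_mul_sum]
      simp_rw [← Finset.sum_div]
      rw [← this]
      field_simp [(cnt_pos k' w).ne', (cnt_pos g w).ne']
    simp_rw [h1]
    rw [Finset.sum_comm]
    have h2 : ∀ w1 : Ω, ∑ w : Ω, ∑ w2 : Ω, (ind (g' w1 = g' w) * ind (k w2 = k w)) /
            cnt k' w / cnt g w ≤ 1 := by
      intro w1
      rw [Finset.sum_comm]
      have h3 : ∀ w2 : Ω, ∑ w : Ω, (ind (g' w1 = g' w) * ind (k w2 = k w)) / cnt k' w / cnt g w
          ≤ ind (g w2 = g w1) / cnt g w1 := by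
        intro w2
        have h4 : ∀ w : Ω, (ind (g' w1 = g' w) * ind (k w2 = k w)) / cnt k' w / cnt g w
            ≤ (ind (g' w1 = g' w ∧ k w2 = k w) / cnt k' w) * (ind (g w2 = g w1) / cnt g w1) := by
          intro w
          rw [← ind_and]
          by_cases hw : g' w1 = g' w ∧ k w2 = k w
          · have e1 : g w1 = g w := h _ _ hw.1
            have e2 : g w2 = g w := (Prod.ext_iff.1 hw.2).2
            rw [ind_pos hw, ind_pos (e2.trans e1.symm), cnt_eq_of_eq g e1]
            apply le_of_eq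
            ring
          · rw [ind_neg hw]; simp
        calc _ ≤ ∑ w : Ω, (ind (g' w1 = g' w ∧ k w2 = k w) / cnt k' w) *
              (ind (g w2 = g w1) / cnt g w1) := Finset.sum_le_sum fun w _ => h4 w
          _ = (∑ w : Ω, ind (g' w1 = g' w ∧ k w2 = k w) / cnt k' w) *
              (ind (g w2 = g w1) / cnt g w1) := by rw [Finset.sum_mul]
          _ ≤ 1 * (ind (g w2 = g w1) / cnt g w1) := by
              refine mul_le_mul_of_nonneg_right ?_ (div_nonneg (ind_nonneg _) (cnt_pos _ _).le)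
              refine sum_inv_cnt_le _ _ fun w w' hw hw' => ?_
              refine Prod.ext ?_ ?_
              · exact ((Prod.ext_iff.1 hw.2).1.symm).trans (Prod.ext_iff.1 hw'.2).1
              · exact hw.1.symm.trans hw'.1
          _ = _ := one_mul _
      calc _ ≤ ∑ w2 : Ω, ind (g w2 = g w1) / cnt g w1 := Finset.sum_le_sum fun w2 _ => h3 w2
        _ = (∑ w2 : Ω, ind (g w2 = g w1)) / cnt g w1 := by rw [Finset.sum_div]
        _ = 1 := div_self (cnt_pos g w1).ne'
    calc _ = ∑ w1 : Ω, ∑ w : Ω, ∑ w2 : Ω, (ind (g' w1 = g' w) * ind (k w2 = k w)) /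
            cnt k' w / cnt g w := by rfl
      _ ≤ ∑ _w1 : Ω, (1 : ℝ) := Finset.sum_le_sum fun w1 _ => h2 w1
      _ = _ := by simp [Finset.card_univ]
  rw [Real.log_one, zero_mul] at hmain
  unfold H
  refine div_le_div_of_nonneg_right ?_ hcard.le
  have hdiff : ∑ w : Ω, Real.log ((cnt g' w / cnt k' w) * (cnt k w / cnt g w))
      = ∑ w : Ω, Real.log (cnt g' w / cnt k' w) - ∑ w : Ω, Real.log (cnt g w / cnt k w) := by
    rw [← Finset.sum_sub_distrib]
    refine Finset.sum_congr rfl fun w _ => ?_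
    rw [← Real.log_div (div_pos (cnt_pos _ w) (cnt_pos _ w)).ne'
      (div_pos (cnt_pos _ w) (cnt_pos _ w)).ne']
    congr 1
    field_simp [(cnt_pos k' w).ne', (cnt_pos g w).ne', (cnt_pos k w).ne']
  rw [hdiff] at hmain
  linarith

theorem H_cond_le {α β γ : Type*} (f : Ω → α) (g : Ω → β) (h : Ω → γ) :
    H f (fun x => (g x, h x)) ≤ H f g :=
  H_anti f g _ fun _ _ e => (Prod.ext_iff.1 e).1

/-- a function of the condition has entropy zero -/
theorem H_of_fun {α β : Type*} (f : Ω → α) (g : Ω → β)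
    (h : ∀ w w', g w = g w' → f w = f w') : H f g = 0 := by
  unfold H
  rw [Finset.sum_eq_zero, zero_div]
  intro w _
  have : cnt (fun x => (f x, g x)) w = cnt g w := by
    refine cnt_congr _ _ w fun w' => ?_
    simp only [Prod.mk.injEq]
    exact ⟨fun e => e.2, fun e => ⟨h _ _ e, e⟩⟩
  rw [this, div_self (cnt_pos g w).ne', Real.log_one]

end Helper53.EN
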